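import Pool.Agent.W525.BNK

/-!
# MP_b96d2b_ag: all moduli spaces `G(α; 2, K, k)`, `α > 0`, coincide if `(k + 1)² > 4 g`

Let `C` be a Brill-Noether general curve of genus `g ≥ 2`, let `k` be an integer with
`(k + 1)² > 4 g` and `α > 0`. A coherent system `(E, V)` of type `(2, 2 g - 2, k)` with
`det E ≅ K` is `α`-stable if and only if `E` is a stable bundle. So there are no critical values, and
`G(α; 2, K, k) = G_0(2, K, k)` for all `α > 0`.

If `β(2, K, k) = 3 g - 3 - k (k + 1) / 2 < 0`, then `(k + 1)² > k (k + 1) ≥ 6 g - 4 ≥ 4 g`, so the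
theorem applies; as `G_0(2, K, k) = ∅` for a general curve by the theorem of Teixidor, this gives
`G(α; 2, K, k) = ∅` for all `α > 0` (Q1).

The curve is given by its function field, vector bundles by local frames, see
`Pool/Agent/Helper395/CS/Defs.lean` and `Pool/Agent/Helper395/BC/Defs.lean`; `IsCanonical` and
`IsBrillNoetherGeneral` are defined in `Pool/Agent/W525/BNK.lean`.
-/

namespace Pool.Agent.Results.MP_b96d2b_ag.NoWallsCanonical

open Pool.Agent.Helper395.CS hiding genus
open Pool.Agent.Helper395.BC
open Pool.Agent.W525.BNK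

/-- On a Brill-Noether general curve of genus `g ≥ 2` and for `(k + 1)² > 4 g`, `α > 0`, a coherent
system `(E, V)` of type `(2, 2 g - 2, k)` with canonical determinant is `α`-stable if and only if
`E` is stable. -/
theorem result (K : Type) [Field K] [Algebra ℂ K] (hK : IsCurve K) (hg : 2 ≤ genus K)
    (hBN : IsBrillNoetherGeneral K) (k : ℕ) (hk : 4 * genus K < (k + 1) ^ 2) (α : ℝ) (hα : 0 < α)
    (S : CoherentSystem K 2 (2 * (genus K : ℤ) - 2) k) (hS : IsCanonical S.bundle.det) :
    S.IsStable α ↔ IsStable S.bundle :=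
  main hK hg hBN k hk α hα S hS

end Pool.Agent.Results.MP_b96d2b_ag.NoWallsCanonical
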